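import Pool.Agent.H56.KPM.Nine
import Pool.Agent.H99.DPC.Thm

/-!
# `KP 3`
-/

set_option autoImplicit false

namespace Pool.PB

open Pool.KA Pool.S6C

/-- **`KP 3`**, without hypotheses. -/
theorem kp3_thm : KP 3 := kp_three_nine (dfr_thm99 ldOne_thm)

end Pool.PB
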