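import Pool.Agent.H18.PB.Row2
import Pool.Agent.H60.PB.CHT
import Pool.Agent.H36.PB.Sps3
import Pool.Agent.H18.PB.End

/-!
# The assembly for `m = 3`

If the fans are not within macroscopic distance of lines (`S6Stmt`), then they are spread off lines
at all scales (`sps_three`, helper36). With plan B this gives `K'(3)`.
-/

set_option autoImplicit false

namespace Pool.PB

open Finset Real
open Pool.Agent.H49.Ent Pool.Agent.H32.Dense Pool.STK Pool.KA Pool.KSAT Pool.K2S

/-- **Plan B**: the chart and the choice of the row are proved. -/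
theorem kp_of_planB3 {m : ℕ}
    (hSPS : ∀ a R : ℝ, 1 < a → 0 < R → UBa m a R → SPS (FCl.mx m a R) (m - 2))
    (hSTP : ∀ S : FCl m, SPS S (m - 2) → STP S) (hSLP : ∀ S : FCl m, SPS S (m - 2) → SLP S)
    (hEND : ∀ a R : ℝ, 1 < a → 0 < R → UBa m a R → SPS (FCl.mx m a R) (m - 2) →
      ENDS (FCl.mx m a R)) : KP m :=
  kp_of_planB2 hSPS
    (fun _ _ ha hR hU => chs_of_cht (Pool.Agent.H60.PB.cht_gen m) ha hR hU)
    (fun _ _ ha hR hU => row_cls (tls_mx ha hR hU)) hSTP hSLP hEND

/-- **Plan B**, with the end proved: only the spread of the fans off planks of the right number of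
directions, the jump and the slope remain. -/
theorem kp_of_planB4 (k : ℕ)
    (hSPS : ∀ a R : ℝ, 1 < a → 0 < R → UBa (k + 2) a R → SPS (FCl.mx (k + 2) a R) k)
    (hSTP : ∀ S : FCl (k + 2), SPS S k → STP S) (hSLP : ∀ S : FCl (k + 2), SPS S k → SLP S) :
    KP (k + 2) :=
  kp_of_planB3 (m := k + 2) (fun a R ha hR hU => hSPS a R ha hR hU) (fun S hS => hSTP S hS)
    (fun S hS => hSLP S hS) (fun _ _ ha hR _ hS => end_mx k ha.le hR hS)

/-- **The assembly for `m = 3`.** -/
theorem kp_three (h6 : Pool.S6K.S6Stmt) (hSTP : ∀ S : FCl 3, SPS S 1 → STP S)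
    (hSLP : ∀ S : FCl 3, SPS S 1 → SLP S) : KP 3 :=
  kp_of_planB4 1 (fun a R ha hR hU => Pool.Agent.H36.PB.sps_three h6 a R ha hR hU) hSTP hSLP

end Pool.PB
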