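import Pool.Agent.H56.KPM.Five
import Pool.Agent.H76.SLF.H5W

/-!
# The slope law and the jump of the labels, without hypotheses

For every `k ≥ 1` and every class of families of dimension `k + 1` which satisfies the
single-pencil statements, the slope law (SLP) holds; with (STP), the Kakeya pencil problem of
dimension three is left with the one-dimensional fans only.
-/

set_option autoImplicit false

namespace Pool.PB

open Finset Real
open Pool.Agent.H49.Ent Pool.Agent.H32.Dense Pool.STK Pool.KA Pool.KSAT Pool.K2S

/-- **The slopes of the labels**, with no hypothesis left. -/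
theorem slo_thm {k : ℕ} {S : FCl (k + 1)} (hS : SPS S (k + 1 - 2)) : Pool.SLF.SLO S :=
  slo_of_h5w hS (Pool.PTH.h5w_thm hS (Pool.FRF.frf hS))

/-- **(SLP)** The slope law, with no hypothesis left. -/
theorem slp_thm {k : ℕ} (hk : 1 ≤ k) {S : FCl (k + 1)} (hS : SPS S (k + 1 - 2)) : SLP S :=
  slp_all hk hS (Pool.PTH.h5w_thm hS (Pool.FRF.frf hS))

/-- **The assembly for `m = 3`**: only the one-dimensional fans are left. -/
theorem kp_three_s6 (h6 : Pool.S6K.S6Stmt) : KP 3 :=
  kp_three_two h6 fun _ hS => Pool.PTH.h5w_thm hS (Pool.FRF.frf hS)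

end Pool.PB
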