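import Pool.Agent.H56.KPM.Seven
import Pool.Agent.H10.S6U.Uz6
import Pool.Agent.H77.S6C.Row2
import Pool.Agent.H2.UST.Vla
import Pool.Agent.H33.S6.NatF
import Pool.Agent.H51.S6.NSum
import Pool.Agent.H16.S6.NStart
import Pool.Agent.H65.S6.H3F

/-!
# The assembly for `m = 3`, with the vertical count and the natural boxes
-/

set_option autoImplicit false

namespace Pool.PB

open Finset Real
open Pool.Agent.H49.Ent Pool.Agent.H32.Dense Pool.STK Pool.KA Pool.KSAT Pool.K2S Pool.S6C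

/-- Row (A) of the vertical count. -/
theorem uvla_thm : Pool.S6V.UVLAStmt := Pool.UST.uvla_of (Pool.S6V.row_cls Pool.UST.us_all)

/-- The vertical count, from LEMMA X. -/
theorem uv_of_lx (hX : Pool.S6V.LXStmt) : UVStmt :=
  Pool.S6V.uva_thm uvla_thm uvlb_thm Pool.S6V.uvlc_thm hX

/-- The natural boxes are full, from LEMMA X. -/
theorem nat_of_lx (hX : Pool.S6V.LXStmt) : NATStmt :=
  Pool.S6V.nat_of (Pool.S6V.nsum_of uvla_thm Pool.S6V.uvlc_thm hX)
    (Pool.S6C.Nst.nstart_of (uv_of_lx hX))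

/-- **The assembly for `m = 3`**, from LEMMA X and the rows which are left. -/
theorem kp_three_eight (hX : Pool.S6V.LXStmt) (hH5 : NATStmt → Pool.S6N.H5Stmt)
    (hHPLA : NATStmt → HPLASet) (hDPLA : NATStmt → DPLASet) : KP 3 :=
  kp_three_seven uvla_thm hX (Pool.H3X.h3_of_ue Pool.UST.ue_all) (hH5 (nat_of_lx hX))
    (nat_of_lx hX) (hHPLA (nat_of_lx hX)) (hDPLA (nat_of_lx hX))

end Pool.PB
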