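import Pool.Agent.H71.SLP.Skel
import Pool.Agent.H33.PTH.Vis
import Pool.Agent.H31.SLF.H2S
import Pool.Agent.H7.SLF.Shd
import Pool.Agent.H7.SLF.H5F
import Pool.Agent.H49.FRF.All
import Pool.Agent.H48.PTH.D4
import Pool.Agent.H41.PTH.DF
import Pool.Agent.H41.PTH.ALV
import Pool.Agent.H59.PTH.Sta
import Pool.Agent.H41.SLF.Fnr
import Pool.Agent.H59.SLF.Ydg
import Pool.Agent.H59.SLF.Mkf
import Pool.Agent.H81.SLP.CoreK
import Pool.Agent.H25.SLF.H1F
import Pool.Agent.H36.M5.Dat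
import Pool.Agent.H39.SLO.Lin
import Pool.Agent.H28.SLO.Fin6
import Pool.Agent.H48.M5.L1
import Pool.Agent.H25.SLF.NestC
import Pool.Agent.H59.SLF.Crd

/-!
# The slopes of the labels: all rows together
-/

set_option autoImplicit false

namespace Pool.PB

open Finset Real
open Pool.Agent.H49.Ent Pool.Agent.H32.Dense Pool.STK Pool.KA Pool.KSAT Pool.K2S

/-- **The slopes of the labels**, from the rows of the heights. -/
theorem slo_of_h5w {k : ℕ} {S : FCl (k + 1)} (hS : SPS S (k + 1 - 2)) (h5 : Pool.PTH.H5W S) :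
    Pool.SLF.SLO S := by
  have hS' : SPS S (k - 1) := hS
  have hFR : Pool.SLF.FRF S := Pool.FRF.frf hS
  have hSHD := Pool.SLF.shd_thm hFR
  have hNST := Pool.SLF.nst_of (Pool.SLF.crd_thm hFR)
  exact Pool.SLF.slo_of_rows (Pool.SLF.ydg_thm k) (Pool.SLO.corek k) (Pool.SLF.h1f_thm S)
    (Pool.M5.Dat.dat_thm hS') (Pool.Agent.H39.SLO.lin_thm S) (Pool.SLF.mkf_thm hS) hSHD
    (Pool.SLF.h5f_thm hS' hFR) (Pool.SLF.h2s_of hSHD hNST)
    (Pool.PTH.vis_thm Pool.M5.n1 (fun K C0 _ => Pool.PTH.d4_thm (k + 1) K C0)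
      (fun K C0 _ => Pool.PTH.df_thm k K C0) Pool.PTH.alv_thm (Pool.PTH.sta_thm k) h5
      (Pool.SLF.h1f_thm S) (Pool.SLF.fnr_thm (k + 1))) (Pool.SLO.FN.fin_thm S)

end Pool.PB
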