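import Pool.Agent.H56.KPM.Four
import Pool.Agent.H56.KPM.Slo
import Pool.Agent.H19.BFL.Bflw
import Pool.Agent.H65.OVN.AllF
import Pool.Agent.H44.KJ.JSTEP

/-!
# The assembly for `m = 3`: only the one-dimensional fans and one row of the slopes are left
-/

set_option autoImplicit false

namespace Pool.PB

open Finset Real
open Pool.Agent.H49.Ent Pool.Agent.H32.Dense Pool.STK Pool.KA Pool.KSAT Pool.K2S

/-- **(STP)** The jump of the labels. -/
theorem stp_all {m : ℕ} (hm : 2 ≤ m) {S : FCl m} (hS : SPS S (m - 2)) : STP S :=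
  stp_of_two hm Pool.KJ.jstep_thm hS (Pool.OVN.ovf S hS)

/-- **(SLP)** The slope law, from the rows of the heights. -/
theorem slp_all {k : ℕ} (hk : 1 ≤ k) {S : FCl (k + 1)} (hS : SPS S (k + 1 - 2))
    (h5 : Pool.PTH.H5W S) : SLP S :=
  slp_of_two hS (bflw_thm (by omega) hS) (slo_of_h5w hS h5)

/-- **The assembly for `m = 3`.** -/
theorem kp_three_two (h6 : Pool.S6K.S6Stmt)
    (h5 : ∀ S : FCl 3, SPS S 1 → Pool.PTH.H5W S) : KP 3 :=
  kp_three h6 (fun _ hS => stp_all (m := 3) (by norm_num) hS)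
    fun S hS => slp_all (k := 2) (by norm_num) hS (h5 S hS)

end Pool.PB
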