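import Pool.Agent.H56.KPM.Sps
import Pool.Agent.H76.SLP.Bridge
import Pool.Agent.H40.SLP.Rads
import Pool.Agent.H29.PB.Cnv
import Pool.Agent.H99.LST.STP
import Pool.Agent.H37.M2C.Fin

/-!
# The assembly for `m = 3`, with the proved parts of the jump and of the slope law
-/

set_option autoImplicit false

namespace Pool.PB

open Finset Real
open Pool.Agent.H49.Ent Pool.Agent.H32.Dense Pool.STK Pool.KA Pool.KSAT Pool.K2S

/-- **The slope law** from the ball frontier and the slopes. -/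
theorem slp_of_two {k : ℕ} {S : FCl (k + 1)} (hS : SPS S (k + 1 - 2)) (hBFL : BFLW S)
    (hSLO : Pool.SLF.SLO S) : SLP S :=
  slp_of_slf (rads_thm hS) hBFL hSLO (cnvs hS)

/-- **The jump** from LEMMA J and the overflow. -/
theorem stp_of_two {m : ℕ} (hm : 2 ≤ m) (hJ : Pool.KJ.JSTEPStmt) {S : FCl m}
    (hS : SPS S (m - 2)) (hOVF : Pool.FLF.OVF S) : STP S :=
  Pool.FLF.stp_of hJ (by omega) S hS hOVF (Pool.STPA.m2c hm S hS)

/-- **The assembly for `m = 3`.** -/
theorem kp_three_five (h6 : Pool.S6K.S6Stmt) (hJ : Pool.KJ.JSTEPStmt)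
    (hOVF : ∀ S : FCl 3, SPS S 1 → Pool.FLF.OVF S) (hBFL : ∀ S : FCl 3, SPS S 1 → BFLW S)
    (hSLO : ∀ S : FCl 3, SPS S 1 → Pool.SLF.SLO S) : KP 3 :=
  kp_three h6 (fun S hS => stp_of_two (m := 3) (by norm_num) hJ hS (hOVF S hS))
    fun S hS => slp_of_two (k := 2) hS (hBFL S hS) (hSLO S hS)

end Pool.PB
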