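import Pool.Agent.H56.KPM.Eight
import Pool.Agent.H39.S6V.Lx
import Pool.Agent.H95.S6.H5C
import Pool.Agent.H6.S6H.Alpha
import Pool.Agent.H84.DPC.Asm
import Pool.Agent.H84.DPC.Dlv
import Pool.Agent.H88.DPC.Act
import Pool.Agent.H1.S6H.DStr
import Pool.Agent.H72.S6B.BetaC
import Pool.Agent.H91.S6B.FrmR
import Pool.Agent.H28.HP.ColT
import Pool.Agent.H46.S6B.UeZ
import Pool.Agent.H46.S6B.Up
import Pool.Agent.H57.S6B.UepT
import Pool.Agent.H41.S6H.Rc8

/-!
# The assembly for `m = 3`, with the cases of equality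
-/

set_option autoImplicit false

namespace Pool.PB

open Finset Real
open Pool.Agent.H49.Ent Pool.Agent.H32.Dense Pool.STK Pool.KA Pool.KSAT Pool.K2S Pool.S6C

/-- (beta) of the case `v = ρ > 0`. -/
theorem beta_h (hUp : Pool.S6B.UpStmt) : RcBeta fun v ρ => v = ρ ∧ 0 < v :=
  Pool.S6B.beta_of (fun _ _ h => ⟨h.2, h.1⟩) Pool.S6B.uep_pos
    (Pool.S6B.frm_of_raw (frmraw_of fun _ _ h => h.1)) Pool.S6B.col_thm hUp

/-- (beta) of the case `v = ρ = 0`. -/
theorem beta_d (hUp : Pool.S6B.UpStmt) : RcBeta fun v ρ => v = 0 ∧ ρ = 0 :=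
  Pool.S6B.beta_of (fun _ _ h => ⟨h.1, h.1.trans h.2.symm⟩) Pool.S6B.uep_zero
    (Pool.S6B.frm_of_raw (frmraw_of fun _ _ h => h.1.trans h.2.symm)) Pool.S6B.col_thm hUp

/-- The natural boxes are full. -/
theorem nat_thm : NATStmt := nat_of_lx Pool.S6V.lx_thm

/-- The difference of the labels, at one window. -/
theorem ldOne_thm : LDOneStmt := ldOne_of nat_thm

/-- (UP). -/
theorem up_thm : Pool.S6B.UpStmt := Pool.S6B.up_of ldOne_thm

/-- **The assembly for `m = 3`**, from the frames of the case `v = ρ = 0`. -/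
theorem kp_three_nine (hFr : DFrStmt) : KP 3 :=
  kp_three_eight Pool.S6V.lx_thm Pool.S6N.h5_rise (fun hN => hpla_nat hN (beta_h up_thm))
    (fun _ => dpla_set dlv84 hFr dact_thm dstr_thm (beta_d up_thm))

end Pool.PB
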