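import Pool.Agent.H56.KPM.Six
import Pool.Agent.H97.S6.Asm
import Pool.Agent.H25.S6.InpA
import Pool.Agent.H76.S6.Fms
import Pool.Agent.H33.S6.Zne
import Pool.Agent.H90.S6R.Zh6
import Pool.Agent.H90.S6R.Zh7
import Pool.Agent.H88.S6F.Fall
import Pool.Agent.H88.S6F.ActF
import Pool.Agent.H90.S6R.TurF
import Pool.Agent.H21.FALL.Wfe
import Pool.Agent.H23.S6E.Ld2
import Pool.Agent.H23.S6E.Ld4
import Pool.Agent.H2.UST.Out
import Pool.Agent.H80.S6C.Uvc
import Pool.Agent.H45.RPL.One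
import Pool.Agent.H79.RPL.Nl2
import Pool.Agent.H87.RPL.Hno
import Pool.Agent.H6.S6H.One
import Pool.Agent.H50.S6H.Cord
import Pool.Agent.H84.DPC.Split
import Pool.Agent.H45.DPA.Stmt
import Pool.Agent.H46.S6.Str
import Pool.Agent.H26.LBW.Lbw
import Pool.Agent.H39.S6C.Full
import Pool.Agent.H99.PZ.Pzn
import Pool.Agent.H4.KS6.PZV
import Pool.Agent.H4.KS6.Pzh
import Pool.Agent.H34.PZ.Pze
import Pool.Agent.H34.PZ.Rox
import Pool.Agent.H14.PZ.Ext
import Pool.Agent.H74.PZ.Zrt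
import Pool.Agent.H82.PZ.Fvb
import Pool.Agent.H60.PZ.Pzo
import Pool.Agent.H41.S6H.Rc2
import Pool.Agent.H36.S6.ActP
import Pool.Agent.H28.HP.Col

/-!
# All rows of the case `m = 3` which are proved so far, in one module

This module checks that the rows can be used together.
-/
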