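import Pool.Agent.H56.KPM.Six
import Pool.Agent.H51.S6.Uv2
import Pool.Agent.H75.S6C.UvlB
import Pool.Agent.H80.S6C.Uvc
import Pool.Agent.H96.PZ.Fin
import Pool.Agent.H97.S6.Fin
import Pool.Agent.H88.S6F.ActF
import Pool.Agent.H21.FALL.Wfe
import Pool.Agent.H36.S6.RowF
import Pool.Agent.H23.S6E.Ld4
import Pool.Agent.H7.S6.Lev
import Pool.Agent.H62.S6.FFr
import Pool.Agent.H90.S6R.TurF
import Pool.Agent.H49.S6R.Cla
import Pool.Agent.H26.LBW.Fin

/-!
# The assembly for `m = 3`, with the rows of the zooms, of the falling case and of the rising case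
-/

set_option autoImplicit false

namespace Pool.PB

open Finset Real
open Pool.Agent.H49.Ent Pool.Agent.H32.Dense Pool.STK Pool.KA Pool.KSAT Pool.K2S Pool.S6C

/-- **(FALL)** from (NAT). -/
theorem fall_of_nat (hN : NATStmt) : FALLStmt :=
  fall_of Pool.S6F.ffr_thm tur_ffr Pool.FALL.wfe_f act_f lev_thm (rowf_of (ldTwo_of hN))

/-- **The assembly for `m = 3`**, from the rows which are left. -/
theorem kp_three_seven (hA : Pool.S6V.UVLAStmt) (hX : Pool.S6V.LXStmt)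
    (hH3 : Pool.S6N.H3Stmt) (hH5 : Pool.S6N.H5Stmt) (hNAT : NATStmt)
    (hHPLA : HPLASet) (hDPLA : DPLASet) : KP 3 := by
  have hUV : UVStmt := Pool.S6V.uva_thm hA uvlb_thm Pool.S6V.uvlc_thm hX
  exact kp_three_rows lbw_thm hUV (Pool.S6N.rise_from hH3 hH5)
    (fall_of_nat hNAT) (Pool.RPL.rpla_nat hNAT) hHPLA hDPLA (Pool.PZ.pz_thm hUV)

end Pool.PB
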