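import Pool.Agent.H56.KPM.SloU
import Pool.Agent.H80.S6C.Fin
import Pool.Agent.H42.S6C.Top
import Pool.Agent.H77.S6C.PuT
import Pool.Agent.H84.S6.XlF
import Pool.Agent.H86.S6C.TrvT
import Pool.Agent.H39.S6C.Bct
import Pool.Agent.H26.DIC.DIC
import Pool.Agent.H14.S6.Endw
import Pool.Agent.H36.S6.Act
import Pool.Agent.H5.S6.LemcT
import Pool.Agent.H72.LSR.JSTT
import Pool.Agent.H13.K2S.KP2

/-!
# The assembly for `m = 3`, with the modules of the one-dimensional fans
-/

set_option autoImplicit false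

namespace Pool.PB

open Finset Real
open Pool.Agent.H49.Ent Pool.Agent.H32.Dense Pool.STK Pool.KA Pool.KSAT Pool.K2S Pool.S6C

/-- **The assembly for `m = 3`**, from the rows of the one-dimensional fans. -/
theorem kp_three_rows (hLBW : LBWStmt)
    (hUV : UVStmt) (hRISE : RISEStmt) (hFALL : FALLStmt)
    (hRPLA : RPLAStmt) (hHPLA : HPLASet) (hDPLA : DPLASet)
    (hPZ : (∀ S : FCl 3, SPS S 1 → STP S) → (∀ S : FCl 3, SPS S 1 → SLP S) → PZStmt) : KP 3 := by
  have hSTP : ∀ S : FCl 3, SPS S 1 → STP S := fun S hS => stp_all (m := 3) (by norm_num) hS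
  have hSLP : ∀ S : FCl 3, SPS S 1 → SLP S := fun S hS => slp_thm (k := 2) (by norm_num) hS
  have hTOP : TOPStmt := topR_of Pool.ZCL.cross_thm hLBW dic_thm endw_thm bct_thm trv_thm
    hSTP hSLP (Pool.FLF.jstt_thm (by norm_num))
  exact kp_three_s6 (s6_fin Pool.K2S.kp_2 hTOP (pu_of_uv act_stmt hUV)
    (lemc_uv hUV) hRISE hFALL hRPLA hHPLA
    hDPLA (hPZ hSTP hSLP))

end Pool.PB
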