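import Pool.Agent.H56.KPM.Sps
import Pool.Agent.H76.SLP.Asm

/-!
# The assembly for `m = 3`, with the parts of the slope law
-/

set_option autoImplicit false

namespace Pool.PB

open Finset Real
open Pool.Agent.H49.Ent Pool.Agent.H32.Dense Pool.STK Pool.KA Pool.KSAT Pool.K2S

/-- **Plan B** for `m = k + 2`, with the parts of the slope law. -/
theorem kp_of_parts (k : ℕ)
    (hSPS : ∀ a R : ℝ, 1 < a → 0 < R → UBa (k + 2) a R → SPS (FCl.mx (k + 2) a R) k)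
    (hSTP : ∀ S : FCl (k + 2), SPS S k → STP S) (hRAD : ∀ S : FCl (k + 2), SPS S k → RADS S)
    (hBFL : ∀ S : FCl (k + 2), SPS S k → BFLW S) (hSLO : ∀ S : FCl (k + 2), SPS S k → SLOS S)
    (hCNV : ∀ S : FCl (k + 2), SPS S k → CNVS S) : KP (k + 2) :=
  kp_of_planB4 k hSPS hSTP fun S hS => slp_of (hRAD S hS) (hBFL S hS) (hSLO S hS) (hCNV S hS)

/-- **The assembly for `m = 3`**, with the parts of the slope law. -/
theorem kp_three_parts (h6 : Pool.S6K.S6Stmt) (hSTP : ∀ S : FCl 3, SPS S 1 → STP S)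
    (hRAD : ∀ S : FCl 3, SPS S 1 → RADS S) (hBFL : ∀ S : FCl 3, SPS S 1 → BFLW S)
    (hSLO : ∀ S : FCl 3, SPS S 1 → SLOS S) (hCNV : ∀ S : FCl 3, SPS S 1 → CNVS S) : KP 3 :=
  kp_three h6 hSTP fun S hS => slp_of (hRAD S hS) (hBFL S hS) (hSLO S hS) (hCNV S hS)

end Pool.PB
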